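import Pool.Agent.MP_755d6b_an.H27.MainC
import Pool.Agent.MP_755d6b_an.H27.LS
import Pool.Agent.MP_755d6b_an.H27.Los
import Pool.Agent.MP_755d6b_an.H27.Dense
import Pool.Agent.MP_755d6b_an.H27.Kap
import Pool.Agent.MP_755d6b_an.H27.Sub
import Pool.Agent.MP_755d6b_an.H27.Sos
import Pool.Agent.MP_755d6b_an.H27.Alg
import Pool.Agent.MP_755d6b_an.H27.Cfc
import Pool.Agent.MP_755d6b_an.H27.Quot
import Pool.Agent.MP_755d6b_an.H27.Amp
import Pool.Agent.MP_755d6b_an.H27.NoSol
import Pool.Agent.MP_755d6b_an.H27.Model
import Pool.Agent.MP_755d6b_an.H27.Units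
import Pool.Agent.MP_755d6b_an.H27.Emb
import Pool.Agent.MP_755d6b_an.H27.Grp
import Pool.Agent.MP_755d6b_an.H27.LGP

/-!
The hyperfinite II₁ factor and a separable II₁ factor with the same tracial theory and a different
C⋆-theory.

`N` is the group von Neumann algebra of the finitary permutations of `ℕ` and `M` is a separable
elementary submodel of its tracial ultrapower. A finite system of relations between five unitaries
has an exact solution in `M` (matrix models, approximate in the 2-norm) and no solution in `N` that
is approximate in the operator norm (a Kazhdan projection in the finite algebra `L(G × G)`).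
-/

namespace Pool.Agent.Results.MP_755d6b_an.SeparableR

open Pool.Agent.MP_755d6b_an.H98 Pool.Agent.MP_755d6b_an.H27

universe u v

theorem result :
    ∃ (H K : Type) (_ : NormedAddCommGroup H) (_ : InnerProductSpace ℂ H) (_ : CompleteSpace H)
      (_ : NormedAddCommGroup K) (_ : InnerProductSpace ℂ K) (_ : CompleteSpace K)
      (N : VonNeumannAlgebra H) (M : VonNeumannAlgebra K)
      (τ : (H →L[ℂ] H) → ℂ) (σ : (K →L[ℂ] K) → ℂ),
      TopologicalSpace.SeparableSpace H ∧ TopologicalSpace.SeparableSpace K ∧
      IsII1Factor N τ ∧ IsII1Factor M σ ∧ IsHyperfinite N τ ∧ SameTracialTheory N τ M σ ∧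
      ¬ SameCStarTheory N M ∧ ¬ CStarEquiv.{u, v} N M :=
  main ls los dense (sub kap) (noSol sos tensSol alg cfcGap finite quot amp) model (emb units) grp lgp

end Pool.Agent.Results.MP_755d6b_an.SeparableR
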