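import Pool.Agent.MP_755d6b_an.H98.Group
import Pool.Agent.MP_755d6b_an.H98.Iso

/-!
Two II₁ factors with isomorphic tracial ultrapowers and without isomorphic norm ultrapowers.

`N` is the group von Neumann algebra of `(⊕_ℤ ℤ/2) ⋊ F₃` (two generators act trivially, the third
by the shift) and `M` is its tracial ultrapower. In `N` a projection that almost commutes in norm
with the three free generators is `0` or `1`; `N` has property Gamma, so in `M` any three elements
commute with a nontrivial projection.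
-/

namespace Pool.Agent.Results.MP_755d6b_an.TracialNotCStar

open Filter Topology Pool.Agent.MP_755d6b_an.H98

universe u v

theorem result :
    ∃ (H K : Type) (_ : NormedAddCommGroup H) (_ : InnerProductSpace ℂ H) (_ : CompleteSpace H)
      (_ : NormedAddCommGroup K) (_ : InnerProductSpace ℂ K) (_ : CompleteSpace K)
      (N : VonNeumannAlgebra H) (M : VonNeumannAlgebra K)
      (τ : (H →L[ℂ] H) → ℂ) (σ : (K →L[ℂ] K) → ℂ)
      (hN : IsII1Factor N τ) (hM : IsII1Factor M σ),
      TracialEquiv hN.isTrace hM.isTrace ∧ ¬ CStarEquiv.{u, v} N M := by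
  have h : IsTV (LG GG) (dl 1) := isTV_LG
  have hU : ((hyperfilter ℕ : Ultrafilter ℕ) : Filter ℕ) ≤ atTop :=
    Nat.cofinite_eq_atTop ▸ hyperfilter_le_cofinite
  obtain ⟨K, i1, i2, i3, M, Ω', π, hu⟩ := exists_isUltra h (hyperfilter ℕ)
  have := h.nontrivial
  refine ⟨L2 GG, K, inferInstance, inferInstance, inferInstance, i1, i2, i3, LG GG, M,
    vecState (dl 1), vecState Ω', ⟨h.isTrace, h.factor gdata.gap_LG, infinite_LG⟩,
    ⟨hu.tv.isTrace, hu.factor gdata.gap_LG, hu.infinite h infinite_LG⟩,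
    ⟨ℕ × ℕ, ℕ, prodU (hyperfilter ℕ) (hyperfilter ℕ), hyperfilter ℕ,
      prodU_le_cofinite _ hyperfilter_le_cofinite, hyperfilter_le_cofinite,
      ?_⟩, ?_⟩
  · obtain ⟨Φ, hΦ⟩ := hu.exists_iso h _ hU
    exact ⟨Φ, fun x y c => hΦ ⟨x.1, x.2⟩ ⟨y.1, y.2⟩ c⟩
  · rintro ⟨I, J, U, V, ⟨Φ⟩⟩
    exact (isEmpty_of_rigid_soft gdata.rigid_LG (hu.soft hU gdata.gam_LG) U V).false Φ

end Pool.Agent.Results.MP_755d6b_an.TracialNotCStar
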